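import Pool.Agent.Helper85.Refl.Bd
import Pool.Agent.Helper85.Refl.Anatomy

/-! Weak chains of subsets of a set `X` and separation properties of the power set. -/

set_option autoImplicit false

open Cardinal Helper23.Pcf Helper85.Refl

universe u v

namespace Pool.Agent.Helper15.PC

/-- `A_β` (`β < o`) is a weak chain: no `A_β` is covered by finitely many `A_γ`, `γ < β`, and for
every `β < o` of uncountable cofinality there is a club of `δ < β` with `A_δ ⊆ A_β`. -/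
def WeakChain {X : Type v} (A : Ordinal.{u} → Set X) (o : Ordinal.{u}) : Prop :=
  (∀ β < o, ∀ F : Set Ordinal.{u}, F.Finite → (∀ γ ∈ F, γ < β) → ¬ A β ⊆ ⋃ γ ∈ F, A γ) ∧
  ∀ β < o, ℵ₀ < β.cof → ∃ C, ClubIn C β ∧ ∀ δ ∈ C, δ < β → A δ ⊆ A β

/-- The `λ`-Freese–Nation property of the power set of `X`: there is a function `f` that assigns to
every `A ⊆ X` a family of fewer than `λ` subsets of `X`, such that whenever `A ⊆ B` some
`C ∈ f(A) ∩ f(B)` has `A ⊆ C ⊆ B`. -/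
def FN (X : Type u) (lam : Cardinal.{u}) : Prop :=
  ∃ f : Set X → Set (Set X), (∀ A, #(f A) < lam) ∧
    ∀ A B : Set X, A ⊆ B → ∃ C, C ∈ f A ∧ C ∈ f B ∧ A ⊆ C ∧ C ⊆ B

/-- The separation property: there is a function `F` that assigns to every `B ⊆ X` a family of at
most `λ` subsets of `X`, such that whenever `K` is a set of `λ` subsets of `A`, there are `B ∈ K`
and `E ∈ F(B)` with `E ⊆ A` such that `E` contains `λ` members of `K`. -/
def Sep (X : Type u) (lam : Cardinal.{u}) : Prop :=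
  ∃ F : Set X → Set (Set X), (∀ B, #(F B) ≤ lam) ∧
    ∀ (A : Set X) (K : Set (Set X)), (∀ B ∈ K, B ⊆ A) → #K = lam →
      ∃ B ∈ K, ∃ E ∈ F B, E ⊆ A ∧ lam ≤ #{B' : Set X | B' ∈ K ∧ B' ⊆ E}

/-- The weak Freese–Nation property of the power set of `ω`. -/
def WFN : Prop :=
  ∃ f : Set ℕ → Set (Set ℕ), (∀ A, (f A).Countable) ∧
    ∀ A B : Set ℕ, A ⊆ B → ∃ C, C ∈ f A ∧ C ∈ f B ∧ A ⊆ C ∧ C ⊆ B

theorem WeakChain.mono {X : Type v} {A : Ordinal.{u} → Set X} {o o' : Ordinal.{u}}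
    (h : WeakChain A o) (ho : o' ≤ o) : WeakChain A o' :=
  ⟨fun β hβ => h.1 β (hβ.trans_le ho), fun β hβ => h.2 β (hβ.trans_le ho)⟩

theorem WeakChain.ne {X : Type v} {A : Ordinal.{u} → Set X} {o : Ordinal.{u}}
    (h : WeakChain A o) {β γ : Ordinal.{u}} (hβ : β < o) (hγ : γ < β) : ¬ A β ⊆ A γ := by
  intro hs
  refine h.1 β hβ {γ} (Set.finite_singleton γ) (by rintro _ rfl; exact hγ) ?_
  rw [Set.biUnion_singleton]
  exact hs

/-- `E` is covered by finitely many `A_γ`, `γ ≤ β` -/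
def Cov {X : Type v} (A : Ordinal.{u} → Set X) (E : Set X) (β : Ordinal.{u}) : Prop :=
  ∃ T : Set Ordinal.{u}, T.Finite ∧ (∀ γ ∈ T, γ ≤ β) ∧ E ⊆ ⋃ γ ∈ T, A γ

theorem cov_self {X : Type v} {A : Ordinal.{u} → Set X} {E : Set X} {β : Ordinal.{u}}
    (h : E ⊆ A β) : Cov A E β :=
  ⟨{β}, Set.finite_singleton β, by rintro _ rfl; exact le_rfl, by
    rw [Set.biUnion_singleton]; exact h⟩

theorem WeakChain.not_cov {X : Type v} {A : Ordinal.{u} → Set X} {o : Ordinal.{u}}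
    (h : WeakChain A o) {E : Set X} {β γ : Ordinal.{u}} (hβ : β < o) (hγ : γ < β)
    (hE : A β ⊆ E) : ¬ Cov A E γ := by
  rintro ⟨T, h1, h2, h3⟩
  exact h.1 β hβ T h1 (fun δ hδ => (h2 δ hδ).trans_lt hγ) (hE.trans h3)

/-- a rank function -/
theorem exists_rank {X : Type v} (A : Ordinal.{u} → Set X) {o : Ordinal.{u}} (ho : 0 < o) :
    ∃ g : Set X → Ordinal.{u}, (∀ E, g E < o) ∧ ∀ E, ∀ β < o, Cov A E β → Cov A E (g E) := by
  have hg : ∀ E : Set X, ∃ b < o, ∀ β < o, Cov A E β → Cov A E b := by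
    intro E
    by_cases h : ∃ β < o, Cov A E β
    · obtain ⟨β, hβ, hc⟩ := h
      exact ⟨β, hβ, fun _ _ _ => hc⟩
    · exact ⟨0, ho, fun β hβ hc => absurd ⟨β, hβ, hc⟩ h⟩
  choose g hg1 hg2 using hg
  exact ⟨g, hg1, hg2⟩

theorem sep_of_fn {X : Type u} {lam : Cardinal.{u}} (hlam : lam.IsRegular) (h : FN X lam) :
    Sep X lam := by
  classical
  obtain ⟨f, hf1, hf2⟩ := h
  refine ⟨f, fun B => (hf1 B).le, fun A K hK hKc => ?_⟩
  have hC : ∀ B : K, ∃ C, C ∈ f B.1 ∧ C ∈ f A ∧ B.1 ⊆ C ∧ C ⊆ A := fun B => hf2 _ _ (hK _ B.2)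
  choose C hC1 hC2 hC3 hC4 using hC
  obtain ⟨⟨E, hE⟩, hE'⟩ := Cardinal.infinite_pigeonhole (fun B : K => (⟨C B, hC2 B⟩ : f A))
    (by rw [hKc]; exact hlam.1) (by rw [hKc, hlam.cof_ord]; exact hf1 A)
  rw [hKc] at hE'
  have hval : ∀ B ∈ ((fun B : K => (⟨C B, hC2 B⟩ : f A)) ⁻¹' {⟨E, hE⟩} : Set K), C B = E :=
    fun B hB => congrArg Subtype.val hB
  have hne : ((fun B : K => (⟨C B, hC2 B⟩ : f A)) ⁻¹' {⟨E, hE⟩} : Set K).Nonempty := by
    rw [Set.nonempty_iff_ne_empty]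
    intro h
    rw [h, Cardinal.mk_eq_zero] at hE'
    exact hlam.ne_zero hE'.symm
  obtain ⟨B, hB⟩ := hne
  have hBE : C B = E := hval B hB
  refine ⟨B.1, B.2, E, hBE ▸ hC1 B, hBE ▸ hC4 B, ?_⟩
  rw [← hE']
  refine Cardinal.mk_le_of_injective (f := fun B' :
      ((fun B : K => (⟨C B, hC2 B⟩ : f A)) ⁻¹' {⟨E, hE⟩} : Set K) =>
    (⟨B'.1.1, B'.1.2, (hC3 B'.1).trans (hval B'.1 B'.2).subset⟩ :
      {B' : Set X | B' ∈ K ∧ B' ⊆ E})) ?_
  intro B₁ B₂ h
  exact Subtype.ext (Subtype.ext (Subtype.mk.inj h))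

/-- There is no weak chain of length `λ⁺` if `Sep X λ`. -/
theorem no_chain {X : Type u} {lam : Cardinal.{u}} (hlam : lam.IsRegular) (hlam0 : ℵ₀ < lam)
    (hH : Sep X lam) (A : Ordinal.{u} → Set X) (hA : WeakChain A (Order.succ lam).ord) :
    False := by
  classical
  obtain ⟨F, hF, hsep⟩ := hH
  have h2 := hA.2
  have hreg : (Order.succ lam).IsRegular := Cardinal.isRegular_succ hlam.1
  have hcofL : (Order.succ lam).ord.cof = Order.succ lam := hreg.cof_ord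
  have hcofL0 : ℵ₀ < (Order.succ lam).ord.cof := by
    rw [hcofL]; exact hlam0.trans (Order.lt_succ _)
  have hLlim : Order.IsSuccLimit (Order.succ lam).ord := Cardinal.isSuccLimit_ord hreg.1
  have hlamlim : Order.IsSuccLimit lam.ord := Cardinal.isSuccLimit_ord hlam.1
  have hlamcof : ℵ₀ < lam.ord.cof := by rw [hlam.cof_ord]; exact hlam0
  obtain ⟨g, hg1, hg2⟩ := exists_rank A hLlim.bot_lt
  let h : Ordinal.{u} → Ordinal.{u} := fun δ => ⨆ E : F (A δ), g E.1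
  have hh : ∀ δ, h δ < (Order.succ lam).ord := fun δ =>
    Ordinal.iSup_lt_of_lt_cof (by rw [hcofL]; exact (hF _).trans_lt (Order.lt_succ _))
      fun E => hg1 E.1
  have hgh : ∀ δ, ∀ E ∈ F (A δ), g E ≤ h δ := fun δ E hE =>
    Ordinal.le_iSup (fun E : F (A δ) => g E.1) ⟨E, hE⟩
  have hclub : ClubIn {i | ∀ j < i, i ∈ Set.Ioi (h j)} (Order.succ lam).ord := by
    refine club_diag hcofL0 (fun x hx => ?_) (fun j => Set.Ioi (h j)) fun j _ =>
      club_Ioi hLlim (hh j)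
    rw [hcofL]
    exact Cardinal.lt_ord.1 hx
  obtain ⟨α, hαcof, hαh, hα⟩ := stat_cof hlam hreg (Order.lt_succ lam) _ hclub
  replace hαcof : α.cof = lam := hαcof
  have hαlim : Order.IsSuccLimit α :=
    Ordinal.one_lt_cof_iff.1 (by rw [hαcof]; exact one_lt_aleph0.trans hlam0)
  obtain ⟨C, hC, hCA⟩ := h2 α hα (by rw [hαcof]; exact hlam0)
  obtain ⟨Φ, ξ, hξ, hξα⟩ := exists_cont_cofinal hαlim
  rw [hαcof] at hξα
  have hξlt : ∀ i < lam.ord, ξ i < α := fun i hi => by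
    rw [← hξα]; exact cont_lt hξ hi
  have hD : ClubIn {i | ξ i ∈ C} lam.ord := club_preimage hξ hlamcof (by rw [hξα]; exact hC)
  let S : Set Ordinal.{u} := {i | ξ i ∈ C} ∩ Set.Iio lam.ord
  have hSsmall : Small.{u} S := small_subset (show S ⊆ Set.Iio lam.ord from fun i h => h.2)
  -- the size of `S`
  have hScard : #S = Cardinal.lift.{u + 1} lam := by
    apply le_antisymm
    · refine (Cardinal.mk_le_mk_of_subset (show S ⊆ Set.Iio lam.ord from fun i h => h.2)).trans ?_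
      rw [Cardinal.mk_Iio_ordinal, Cardinal.card_ord]
    · by_contra hcon
      push Not at hcon
      have hsup : ⨆ i : S, i.1 < lam.ord := by
        refine Ordinal.lift_iSup_lt_of_lt_cof ?_ fun i => i.2.2
        rw [← Ordinal.lift_cof, hlam.cof_ord, Cardinal.lift_id'.{u, u + 1}]
        exact hcon
      obtain ⟨y, hy1, hy2, hy3⟩ := hD.unb _ hsup
      exact absurd (Ordinal.le_iSup (fun i : S => i.1) ⟨y, hy1, hy3⟩) (not_le.2 hy2)
  have hinjS : Set.InjOn (fun i => A (ξ i)) S := by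
    intro i hi j hj hij
    by_contra hne
    rcases lt_or_gt_of_ne hne with h3 | h3
    · exact hA.ne ((hξlt j hj.2).trans hα) (cont_lt hξ h3) (Eq.subset hij.symm)
    · exact hA.ne ((hξlt i hi.2).trans hα) (cont_lt hξ h3) (Eq.subset hij)
  let K : Set (Set X) := (fun i => A (ξ i)) '' S
  have hK : #K = lam := by
    have h3 := Cardinal.mk_image_eq_of_injOn_lift (fun i => A (ξ i)) S hinjS
    rw [hScard, Cardinal.lift_lift] at h3
    exact Cardinal.lift_injective h3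
  obtain ⟨B, hBK, E, hEF, hEA, hEK⟩ := hsep (A α) K (by
    rintro _ ⟨i, hi, rfl⟩
    exact hCA _ hi.1 (hξlt i hi.2)) hK
  obtain ⟨j, hj, rfl⟩ := hBK
  -- `E` contains `A (ξ i)` for unboundedly many `i`
  have hunb : ∀ γ < α, ∃ i ∈ S, γ < ξ i ∧ A (ξ i) ⊆ E := by
    intro γ hγ
    by_contra hcon
    push Not at hcon
    obtain ⟨k, hk, hγk⟩ := cont_limit hξ hlamlim.isSuccPrelimit (by rw [hξα]; exact hγ)
    have hsub : {B' : Set X | B' ∈ K ∧ B' ⊆ E} ⊆ (fun i => A (ξ i)) '' Set.Iio k := by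
      rintro _ ⟨⟨i, hi, rfl⟩, hiE⟩
      refine ⟨i, ?_, rfl⟩
      by_contra hik
      have h3 : ξ k ≤ ξ i := cont_le hξ (not_lt.1 hik)
      exact hcon i hi (hγk.trans_le h3) hiE
    have h4 : Cardinal.lift.{u + 1} #((fun i => A (ξ i)) '' Set.Iio k : Set (Set X)) ≤
        Cardinal.lift.{u + 1} k.card := by
      have h5 := Cardinal.mk_image_le_lift (f := fun i => A (ξ i)) (s := Set.Iio k)
      rw [Cardinal.mk_Iio_ordinal, Cardinal.lift_lift] at h5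
      exact h5
    have h6 := (hEK.trans (Cardinal.mk_le_mk_of_subset hsub)).trans (Cardinal.lift_le.1 h4)
    exact absurd (Cardinal.lt_ord.1 hk) (not_lt.2 h6)
  have hgα : g E < α := (hgh (ξ j) E hEF).trans_lt (hαh (ξ j) (hξlt j hj.2))
  obtain ⟨i, hi, hi1, hi2⟩ := hunb (g E) hgα
  exact hA.not_cov ((hξlt i hi.2).trans hα) hi1 hi2 (hg2 E α hα (cov_self hEA))

/-- The sequence of the traces of closed transitive generators. -/
theorem exists_chain {α : Ordinal.{u}} {lam : Cardinal.{u}} (hα : Order.IsSuccLimit α)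
    (hlam : lam.IsRegular) (hκlam : #(aSet α) < Cardinal.lift.{u + 1} lam)
    (hp : Cardinal.lift.{u + 1} lam ≤ #(pcf (aSet α))) :
    ∃ A : Ordinal.{u} → Set Cardinal.{u}, (∀ β, A β ⊆ aSet α) ∧ WeakChain A lam.ord := by
  classical
  have hne : (aSet α).Nonempty := by
    by_contra hcon
    rw [Set.not_nonempty_iff_eq_empty] at hcon
    rw [pcf_aSet, hcon, pcfS_empty] at hp
    simp only [Cardinal.mk_eq_zero, nonpos_iff_eq_zero, Cardinal.lift_eq_zero] at hp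
    exact hlam.ne_zero hp
  obtain ⟨γ, hγ, hγα, hA, hAc, h0, hκγ⟩ := setup' hα hne
  have hκlam' : (α - γ).card < lam := by rw [hAc, Cardinal.lift_lt] at hκlam; exact hκlam
  have hp' := hp
  rw [pcf_aSet, hA] at hp'
  obtain ⟨θ, Y, G, ⟨hθ, _⟩, hY, _, hG1, hG2, _, _, hidx, hclub⟩ :=
    exists_structure h0 rfl hκγ hα hγα hlam hκlam' hp'
  subst hθ
  have hYA : Y ⊆ aSet α := hY.trans hA.ge
  have hYreg : ∀ m ∈ Y, m.IsRegular := fun m hm => (hY hm).1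
  refine ⟨fun β => Y ∩ G (idx (γ + (6 : ℕ)) β), fun β => Set.inter_subset_left.trans hYA,
    ⟨?_, ?_⟩⟩
  · intro β hβ F hF hFβ hsub
    refine not_cover hYreg hG1 hG2 (hidx β hβ) (hF.image (idx (γ + (6 : ℕ)))) ?_ ?_ ?_
    · rintro _ ⟨δ, hδ, rfl⟩
      exact hidx δ ((hFβ δ hδ).trans hβ)
    · rintro _ ⟨δ, hδ, rfl⟩
      exact idx_lt.2 (hFβ δ hδ)
    · refine hsub.trans ?_
      intro x hx
      obtain ⟨δ, hδ, hx'⟩ := Set.mem_iUnion₂.1 hx
      exact Set.mem_iUnion₂.2 ⟨_, ⟨δ, hδ, rfl⟩, hx'.2⟩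
  · intro β hβ hβcof
    obtain ⟨C, hC, hC'⟩ := hclub β hβ hβcof
    refine ⟨C, hC, fun δ hδ hδβ => ?_⟩
    exact Set.inter_subset_inter_right Y ((hG1 _ (hidx β hβ)).2.2.2 _ (hC' δ hδ hδβ))

/-- Weak chains of subsets of a set of size at least `|a_α|`. -/
theorem exists_chain' {α : Ordinal.{u}} {X : Type u} {lam : Cardinal.{u}}
    (hα : Order.IsSuccLimit α) (hX : #(aSet α) ≤ Cardinal.lift.{u + 1} #X)
    (hlam : lam.IsRegular) (hXlam : #X < lam)
    (hp : Cardinal.lift.{u + 1} lam ≤ #(pcf (aSet α))) :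
    ∃ A : Ordinal.{u} → Set X, WeakChain A lam.ord := by
  classical
  have hκ : #(aSet α) < Cardinal.lift.{u + 1} lam := hX.trans_lt (Cardinal.lift_lt.2 hXlam)
  obtain ⟨A, hA1, hA2, hA3⟩ := exists_chain hα hlam hκ hp
  obtain ⟨e⟩ : Nonempty (aSet α ↪ X) := by
    refine Cardinal.lift_mk_le'.1 ?_
    rw [Cardinal.lift_id'.{u, u + 1}]
    exact hX
  refine ⟨fun β => {x | ∃ c : aSet α, c.1 ∈ A β ∧ e c = x}, ⟨?_, ?_⟩⟩
  · intro β hβ F hF hFβ hsub
    refine hA2 β hβ F hF hFβ fun c hc => ?_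
    obtain ⟨γ', hγ', c', hc', he⟩ := Set.mem_iUnion₂.1 (hsub ⟨⟨c, hA1 β hc⟩, hc, rfl⟩)
    have := e.injective he
    rw [this] at hc'
    exact Set.mem_iUnion₂.2 ⟨γ', hγ', hc'⟩
  · intro β hβ hβcof
    obtain ⟨C, hC, hC'⟩ := hA3 β hβ hβcof
    refine ⟨C, hC, fun δ hδ hδβ => ?_⟩
    rintro _ ⟨c, hc, rfl⟩
    exact ⟨c, hC' δ hδ hδβ hc, rfl⟩

theorem aleph0_le_of_large {α : Ordinal.{u}} {X : Type u} {c : Cardinal.{u + 1}}
    (hα : Order.IsSuccLimit α) (hX : #(aSet α) ≤ Cardinal.lift.{u + 1} #X) (hc : c ≠ 0)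
    (hp : c ≤ #(pcf (aSet α))) : ℵ₀ ≤ #X := by
  have hne : (aSet α).Nonempty := by
    by_contra hcon'
    rw [Set.not_nonempty_iff_eq_empty] at hcon'
    rw [pcf_aSet, hcon', pcfS_empty] at hp
    simp at hp
    exact hc hp
  obtain ⟨_, _, _, _, hAc, h0, _⟩ := setup' hα hne
  rw [hAc, Cardinal.lift_le] at hX
  exact h0.trans hX

theorem fn_of_wfn (h : WFN) : FN (ULift.{u} ℕ) ℵ₁ := by
  obtain ⟨f, hf1, hf2⟩ := h
  refine ⟨fun A => (fun C : Set ℕ => (ULift.down ⁻¹' C : Set (ULift.{u} ℕ))) ''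
    f (ULift.up ⁻¹' A), fun A => ?_, fun A B hAB => ?_⟩
  · rw [← Cardinal.succ_aleph0, Order.lt_succ_iff, Cardinal.le_aleph0_iff_set_countable]
    exact (hf1 _).image _
  · obtain ⟨C, h1, h2, h3, h4⟩ := hf2 (ULift.up ⁻¹' A) (ULift.up ⁻¹' B)
      (Set.preimage_mono hAB)
    exact ⟨ULift.down ⁻¹' C, ⟨C, h1, rfl⟩, ⟨C, h2, rfl⟩, fun x hx => h3 hx, fun x hx => h4 hx⟩

end Pool.Agent.Helper15.PC
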