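import Pool.Agent.Helper15.PC.Pred

/-! Fresh clubs for weak chains, and the bounding and dominating numbers. -/

set_option autoImplicit false

open Cardinal Ordinal Set Helper23.Pcf Helper85.Refl

universe u v

namespace Pool.Agent.Helper15.PC

/-- Fresh clubs. -/
theorem exists_fresh {X : Type u} {lam : Cardinal.{u}} (h0 : ℵ₀ ≤ #X) (hlam : lam.IsRegular)
    (hXlam : Order.succ #X < lam) {A : Ordinal.{u} → Set X} (hA : WeakChain A lam.ord)
    {T : Set Ordinal.{u}} (hT : Approachable T (Order.succ #X) lam) :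
    ∃ D : Ordinal.{u} → Set Ordinal.{u},
      (∀ β, D β ⊆ Iio (Order.succ #X).ord ∧ ClubIn (D β) (Order.succ #X).ord) ∧
      ∀ P : Set (Set Ordinal.{u}), #P < Cardinal.lift.{u+1} lam → ∃ E, ClubIn E lam.ord ∧
        ∀ β ∈ T, β ∈ E → β < lam.ord → ∀ C ⊆ D β, UnbIn C (Order.succ #X).ord →
          ∃ i < (Order.succ #X).ord, C ∩ Iio i ∉ P := by
  classical
  have hκreg : (Order.succ #X).IsRegular := Cardinal.isRegular_succ h0
  have hκlim : Order.IsSuccLimit (Order.succ #X).ord := Cardinal.isSuccLimit_ord hκreg.1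
  have hκcof : ℵ₀ < (Order.succ #X).ord.cof := by
    rw [hκreg.cof_ord]; exact h0.trans_lt (Order.lt_succ _)
  have hlam0 : ℵ₀ < lam := h0.trans_lt ((Order.lt_succ _).trans hXlam)
  have hlamcof : ℵ₀ < lam.ord.cof := by rw [hlam.cof_ord]; exact hlam0
  have hlamlim : Order.IsSuccLimit lam.ord := Cardinal.isSuccLimit_ord hlam.1
  obtain ⟨g, hg1, hg2⟩ := exists_rank A hlamlim.bot_lt
  obtain ⟨H, E, hH, hE, hTE⟩ := hT
  -- the sequences and the clubs
  have hD : ∀ β : Ordinal.{u}, ∃ (D : Set Ordinal.{u}) (c : Ordinal.{u} → Ordinal.{u}),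
      D ⊆ Iio (Order.succ #X).ord ∧ ClubIn D (Order.succ #X).ord ∧
      (β ∈ T → β ∈ E → β < lam.ord →
        (∀ i < (Order.succ #X).ord, ∀ j < i, c j < c i) ∧
        smooth c (Order.succ #X).ord = β ∧
        (∀ i < (Order.succ #X).ord, ∃ γ < β, ∃ h ∈ H γ, ∀ j < i, c j = h j) ∧
        ∀ i ∈ D, A (smooth c i) ⊆ A β) := by
    intro β
    have huniv : ClubIn (Iio (Order.succ #X).ord) (Order.succ #X).ord :=
      ⟨fun y hy => ⟨Order.succ y, hκlim.succ_lt hy, Order.lt_succ y, hκlim.succ_lt hy⟩,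
        fun δ hδ _ _ => hδ⟩
    by_cases hβ : β ∈ T ∧ β ∈ E ∧ β < lam.ord
    · obtain ⟨c, hc1, hc2, hc3, hc4⟩ := hTE β hβ.1 hβ.2.1 hβ.2.2
      have htop := smooth_top hκlim hc1 hc2 hc3
      have hcof : ℵ₀ < β.cof := by
        rw [← htop, cont_cof (smooth_spec c) hκlim]; exact hκcof
      obtain ⟨C, hC, hC'⟩ := hA.2 β hβ.2.2 hcof
      have h1 : ClubIn {i | smooth c i ∈ C} (Order.succ #X).ord :=
        club_preimage (smooth_spec c) hκcof (by rw [htop]; exact hC)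
      refine ⟨{i | smooth c i ∈ C} ∩ Iio (Order.succ #X).ord, c, inter_subset_right,
        club_inter hκcof h1 huniv, fun _ _ _ => ⟨hc1, htop, hc4, ?_⟩⟩
      rintro i ⟨hi, hi'⟩
      refine hC' _ hi ?_
      have h2 := cont_lt (smooth_spec c) hi'
      rw [htop] at h2
      exact h2
    · exact ⟨_, id, subset_rfl, huniv, fun h1 h2 h3 => absurd ⟨h1, h2, h3⟩ hβ⟩
  choose D c hD1 hD2 hD3 using hD
  refine ⟨D, fun β => ⟨hD1 β, hD2 β⟩, fun P hP => ?_⟩
  let Z : (Ordinal.{u} → Ordinal.{u}) → Set Ordinal.{u} → Set X :=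
    fun h B => ⋃ j ∈ B, A (smooth h j)
  have hbd : ∀ γ : Ordinal.{u}, ∃ b < lam.ord, γ < lam.ord → ∀ h ∈ H γ, ∀ B ∈ P,
      g (Z h B) < b := by
    intro γ
    by_cases hγ : γ < lam.ord
    · have h1 := iSup_lt_of_mk_lt (ι := H γ × P) (f := fun x => g (Z x.1.1 x.2.1)) hlam (by
          rw [Cardinal.mk_prod, Cardinal.lift_id, Cardinal.lift_id]
          exact Cardinal.mul_lt_of_lt (Cardinal.aleph0_le_lift.2 hlam.1) (hH γ hγ) hP)
        fun x => hg1 _
      refine ⟨_, hlamlim.succ_lt h1.2, fun _ h hh B hB => ?_⟩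
      rw [Order.lt_succ_iff]
      exact le_ciSup h1.1 ((⟨h, hh⟩, ⟨B, hB⟩) : H γ × P)
    · exact ⟨0, hlamlim.bot_lt, fun h => absurd h hγ⟩
  choose b hb1 hb2 using hbd
  have hK : ClubIn {β | ∀ γ < β, β ∈ Ioi (b γ)} lam.ord := by
    refine club_diag hlamcof (fun x hx => ?_) (fun γ => Ioi (b γ)) fun γ hγ =>
      club_Ioi hlamlim (hb1 γ)
    rw [hlam.cof_ord]
    exact Cardinal.lt_ord.1 hx
  refine ⟨_, club_inter hlamcof hK hE, ?_⟩
  rintro β hβT ⟨hβK, hβE⟩ hβ C hCD hC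
  by_contra hcon
  push Not at hcon
  obtain ⟨hc1, htop, hc4, hc5⟩ := hD3 β hβT hβE hβ
  obtain ⟨ε, hε, hε'⟩ := exists_stage h0 (fun i => A (smooth (c β) i))
    (C ∩ Iio (Order.succ #X).ord) inter_subset_right
  obtain ⟨γ, hγ, h, hh, hch⟩ := hc4 ε hε
  have hZ : Z h (C ∩ Iio ε) = ⋃ j ∈ C ∩ Iio ε, A (smooth (c β) j) :=
    iUnion₂_congr fun j hj => by rw [smooth_congr hch j (le_of_lt hj.2)]
  have hZβ : Z h (C ∩ Iio ε) ⊆ A β := by
    rw [hZ]
    exact iUnion₂_subset fun j hj => hc5 j (hCD hj.1)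
  have hcov := hg2 _ β hβ (cov_self hZβ)
  have hgβ : g (Z h (C ∩ Iio ε)) < β :=
    (hb2 γ (hγ.trans hβ) h hh _ (hcon ε hε)).trans (hβK γ hγ)
  obtain ⟨k, hk, hgk⟩ := cont_limit (smooth_spec (c β)) hκlim.isSuccPrelimit
    (by rw [htop]; exact hgβ)
  obtain ⟨i, hi1, hi2, hi3⟩ := hC k hk
  have hiβ : smooth (c β) i < β := by
    have h2 := cont_lt (smooth_spec (c β)) hi3
    rw [htop] at h2
    exact h2
  refine hA.not_cov (hiβ.trans hβ) (hgk.trans (cont_lt (smooth_spec _) hi2)) ?_ hcov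
  rw [hZ]
  refine (hε' i ⟨hi1, hi3⟩).trans (iUnion₂_subset fun j hj => ?_)
  exact subset_iUnion₂_of_subset j ⟨hj.1.1, hj.2⟩ subset_rfl

/-- The bounding and the dominating number. -/
theorem b_le_d {X : Type u} {lam : Cardinal.{u}} (h0 : ℵ₀ ≤ #X) (hlam : lam.IsRegular)
    (hXlam : Order.succ #X < lam) {A : Ordinal.{u} → Set X} (hA : WeakChain A lam.ord)
    {T : Set Ordinal.{u}} (hT : Approachable T (Order.succ #X) lam) (hT' : StatIn T lam.ord) :
    bNum #X ≤ lam ∧ lam ≤ dNum #X := by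
  obtain ⟨D, hD1, hD2⟩ := exists_fresh h0 hlam hXlam hA hT
  exact b_le_d_ge h0 hlam hXlam hT' hD1 fun C hC => clubs_stat h0 hXlam hD2 hC

theorem b_le_d_succ3 {X : Type u} (h0 : ℵ₀ ≤ #X) {A : Ordinal.{u} → Set X}
    (hA : WeakChain A (Order.succ (Order.succ (Order.succ #X))).ord) :
    bNum #X ≤ Order.succ (Order.succ (Order.succ #X)) ∧
      Order.succ (Order.succ (Order.succ #X)) ≤ dNum #X := by
  have hκ1 : (Order.succ #X).IsRegular := Cardinal.isRegular_succ h0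
  have hκ2 : (Order.succ (Order.succ #X)).IsRegular := Cardinal.isRegular_succ hκ1.1
  have hlt : Order.succ #X < Order.succ (Order.succ (Order.succ #X)) :=
    (Order.lt_succ _).trans (Order.lt_succ _)
  exact b_le_d h0 (Cardinal.isRegular_succ hκ2.1) hlt hA
    (approachable_succ hκ2 hκ1 (Order.lt_succ _))
    (stat_cof hκ1 (Cardinal.isRegular_succ hκ2.1) hlt)

end Pool.Agent.Helper15.PC
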