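import Pool.Agent.Helper15.PC.Fresh

/-! Families of bounded sets and stationary sets. -/

set_option autoImplicit false

open Cardinal Ordinal Set Helper23.Pcf Helper85.Refl

universe u v

namespace Pool.Agent.Helper15.PC

/-- Let `κ < θ < λ`, `θ`, `λ` regular, and let `P` be a family of fewer than `λ` bounded subsets of
`θ`.  If there is a weak `λ`-chain in the power set of `κ`, there are a club `D` of `θ` and `κ`
stationary subsets of `θ` such that no member of `P` that is a subset of `D` meets all of them. -/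
theorem no_meet {X : Type u} {θ lam : Cardinal.{u}} (h0 : ℵ₀ ≤ #X) (hθ : θ.IsRegular)
    (hXθ : #X < θ) (hlam : lam.IsRegular) (hθlam : θ < lam) {A : Ordinal.{u} → Set X}
    (hA : WeakChain A lam.ord) {P : Set (Set Ordinal.{u})}
    (hP : #P < Cardinal.lift.{u + 1} lam) (hPb : ∀ z ∈ P, ∃ j < θ.ord, z ⊆ Iio j) :
    ∃ (D : Set Ordinal.{u}) (S : X → Set Ordinal.{u}), ClubIn D θ.ord ∧
      (∀ x, StatIn (S x) θ.ord) ∧ ∀ z ∈ P, z ⊆ D → ∃ x, z ∩ S x = ∅ := by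
  classical
  have hlamlim : Order.IsSuccLimit lam.ord := Cardinal.isSuccLimit_ord hlam.1
  have hθ0 : ℵ₀ < θ := h0.trans_lt hXθ
  have hθlim : Order.IsSuccLimit θ.ord := Cardinal.isSuccLimit_ord hθ.1
  have hθcof : ℵ₀ < θ.ord.cof := by rw [hθ.cof_ord]; exact hθ0
  obtain ⟨g, hg1, hg2⟩ := exists_rank A hlamlim.bot_lt
  obtain ⟨ξ, hξ⟩ := exists_cont (fun _ ζ => ⨆ z : P, g (⋃ i ∈ z.1, A (ζ i)))
  have hstep : ∀ ζ : Ordinal.{u} → Ordinal.{u},
      BddAbove (range fun z : P => g (⋃ i ∈ z.1, A (ζ i))) ∧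
        ⨆ z : P, g (⋃ i ∈ z.1, A (ζ i)) < lam.ord := fun ζ =>
    iSup_lt_of_mk_lt hlam hP fun z => hg1 _
  have hξlam : ∀ i < Order.succ θ.ord, ξ i < lam.ord := by
    refine cont_bound hξ hlamlim (fun i _ ζ _ => (hstep ζ).2) ?_
    intro i hi
    have := Ordinal.card_le_card (Order.lt_succ_iff.1 hi)
    rw [Cardinal.card_ord] at this
    rw [hlam.cof_ord]
    exact this.trans_lt hθlam
  have hηlam : ξ θ.ord < lam.ord := hξlam _ (Order.lt_succ _)
  have hηcof : (ξ θ.ord).cof = θ := by rw [cont_cof hξ hθlim, hθ.cof_ord]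
  obtain ⟨C, hC, hC'⟩ := hA.2 _ hηlam (by rw [hηcof]; exact hθ0)
  have huniv : ClubIn (Set.univ : Set Ordinal.{u}) θ.ord :=
    ⟨fun y hy => ⟨Order.succ y, trivial, Order.lt_succ y, hθlim.succ_lt hy⟩,
      fun _ _ _ _ => trivial⟩
  let N : X → Set Ordinal.{u} := fun x => {i | x ∈ A (ξ i)}
  have hE : ∀ x : X, ∃ E : Set Ordinal.{u}, ClubIn E θ.ord ∧
      (¬ StatIn (N x) θ.ord → ∀ i ∈ E, i < θ.ord → i ∉ N x) := by
    intro x
    by_cases hx : StatIn (N x) θ.ord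
    · exact ⟨Set.univ, huniv, fun h => absurd hx h⟩
    · have hx' := hx
      simp only [StatIn, not_forall] at hx'
      obtain ⟨E, hE, hE'⟩ := hx'
      exact ⟨E, hE, fun _ i h1 h2 h3 => hE' ⟨i, h3, h1, h2⟩⟩
  choose E hE1 hE2 using hE
  have hE3 : ClubIn (⋂ x, E x) θ.ord :=
    club_iInter hθcof (by rw [hθ.cof_ord]; exact hXθ) E hE1
  have hD : ClubIn ({i | ξ i ∈ C} ∩ ⋂ x, E x) θ.ord :=
    club_inter hθcof (club_preimage hξ hθcof hC) hE3
  refine ⟨{i | ξ i ∈ C} ∩ ⋂ x, E x, fun x => if StatIn (N x) θ.ord then N x else Set.univ,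
    hD, ?_, ?_⟩
  · intro x
    by_cases hx : StatIn (N x) θ.ord
    · simp only [if_pos hx]; exact hx
    · simp only [if_neg hx]
      intro E' hE'
      obtain ⟨y, h1, _, h3⟩ := hE'.unb 0 hθlim.bot_lt
      exact ⟨y, trivial, h1, h3⟩
  · intro z hzP hzD
    by_contra hcon
    push Not at hcon
    obtain ⟨j, hj, hzj⟩ := hPb z hzP
    have hEη : (⋃ k ∈ z, A (ξ k)) ⊆ A (ξ θ.ord) :=
      iUnion₂_subset fun k hk => hC' _ (hzD hk).1 (cont_lt hξ (lt_trans (hzj hk) hj))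
    have hcov : Cov A (⋃ k ∈ z, A (ξ k)) (g (⋃ k ∈ z, A (ξ k))) :=
      hg2 _ _ hηlam (cov_self hEη)
    have hgle : g (⋃ k ∈ z, A (ξ k)) ≤ ξ (Order.succ j) := by
      have h1 := cont_step hξ (Order.lt_succ j)
      have h2 := le_ciSup (hstep (fun k => if k ≤ j then ξ k else 0)).1 ⟨z, hzP⟩
      have h3 : (⋃ k ∈ z, A (if k ≤ j then ξ k else 0)) = ⋃ k ∈ z, A (ξ k) :=
        iUnion₂_congr fun k hk => by rw [if_pos (le_of_lt (hzj hk))]
      have h4 := h2.trans h1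
      simp only [h3] at h4
      exact h4
    obtain ⟨i, hi1, hi2, hi3⟩ := hD.unb _ (hθlim.succ_lt hj)
    refine hA.not_cov ((cont_lt hξ hi3).trans hηlam) (hgle.trans_lt (cont_lt hξ hi2)) ?_ hcov
    intro x hx
    have hst : StatIn (N x) θ.ord := by
      by_contra hn
      exact hE2 x hn i (mem_iInter.1 hi1.2 x) hi3 hx
    obtain ⟨k, hk1, hk2⟩ := hcon x
    simp only [if_pos hst] at hk2
    exact mem_iUnion₂.2 ⟨k, hk1, hk2⟩

end Pool.Agent.Helper15.PC
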