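import Pool.Agent.Helper15.PC.Chain

/-! Predictors and the bound `κ⁺⁺⁺` for weak chains; simultaneous reflection. -/

set_option autoImplicit false

open Cardinal Ordinal Set Helper23.Pcf Helper85.Refl

universe u v

namespace Pool.Agent.Helper15.PC

/-- Choice of small witnesses: a union of `κ⁺` subsets of a set of size `κ` is the union of a proper
initial segment of them. -/
theorem exists_stage {X : Type u} (h0 : ℵ₀ ≤ #X) (U : Ordinal.{u} → Set X)
    (S : Set Ordinal.{u}) (hS : S ⊆ Iio (Order.succ #X).ord) :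
    ∃ ε < (Order.succ #X).ord, ∀ i ∈ S, U i ⊆ ⋃ j ∈ S ∩ Iio ε, U j := by
  classical
  have hreg : (Order.succ #X).IsRegular := Cardinal.isRegular_succ h0
  have hlim : Order.IsSuccLimit (Order.succ #X).ord := Cardinal.isSuccLimit_ord hreg.1
  have hw : ∀ x : X, ∃ k < (Order.succ #X).ord, ∀ i ∈ S, x ∈ U i → k ∈ S ∧ x ∈ U k := by
    intro x
    by_cases h : ∃ i ∈ S, x ∈ U i
    · obtain ⟨i, hi, hx⟩ := h
      exact ⟨i, hS hi, fun _ _ _ => ⟨hi, hx⟩⟩
    · exact ⟨0, hlim.bot_lt, fun i hi hx => absurd ⟨i, hi, hx⟩ h⟩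
  choose k hk1 hk2 using hw
  refine ⟨⨆ x, Order.succ (k x), ?_, ?_⟩
  · refine Ordinal.iSup_lt_of_lt_cof ?_ fun x => hlim.succ_lt (hk1 x)
    rw [hreg.cof_ord]
    exact Order.lt_succ _
  · intro i hi x hx
    obtain ⟨h1, h2⟩ := hk2 x i hi hx
    refine mem_iUnion₂.2 ⟨k x, ⟨h1, ?_⟩, h2⟩
    exact (Order.lt_succ _).trans_le (Ordinal.le_iSup (fun x => Order.succ (k x)) x)

/-- Predictors: let `κ < θ < λ`, `θ`, `λ` regular, and let `P` be a family of fewer than `λ` sets.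
Then some club `D` of `θ` has no subset of type `κ⁺` all of whose proper initial segments are
covered by members of `P` that are subsets of `D` and bounded in it. -/
theorem no_pred {X : Type u} {θ lam : Cardinal.{u}} (h0 : ℵ₀ ≤ #X) (hθ : θ.IsRegular)
    (hXθ : #X < θ) (hlam : lam.IsRegular) (hθlam : θ < lam) {A : Ordinal.{u} → Set X}
    (hA : WeakChain A lam.ord) {P : Set (Set Ordinal.{u})}
    (hP : #P < Cardinal.lift.{u + 1} lam) :
    ∃ D : Set Ordinal.{u}, ClubIn D θ.ord ∧ ∀ e : Ordinal.{u} → Ordinal.{u},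
      (∀ i < (Order.succ #X).ord, ∀ j < i, e j < e i) →
      (∀ i < (Order.succ #X).ord, e i ∈ D ∧ e i < θ.ord) →
      ∃ ε < (Order.succ #X).ord, ∀ z ∈ P, z ⊆ D → e '' Iio ε ⊆ z →
        ∀ i < (Order.succ #X).ord, ¬ z ⊆ Iio (e i) := by
  classical
  have hlamlim : Order.IsSuccLimit lam.ord := Cardinal.isSuccLimit_ord hlam.1
  have hθ0 : ℵ₀ < θ := h0.trans_lt hXθ
  have hθlim : Order.IsSuccLimit θ.ord := Cardinal.isSuccLimit_ord hθ.1
  have hreg : (Order.succ #X).IsRegular := Cardinal.isRegular_succ h0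
  have hlim : Order.IsSuccLimit (Order.succ #X).ord := Cardinal.isSuccLimit_ord hreg.1
  obtain ⟨g, hg1, hg2⟩ := exists_rank A hlamlim.bot_lt
  obtain ⟨ξ, hξ⟩ := exists_cont (fun _ ζ => ⨆ z : P, g (⋃ i ∈ z.1, A (ζ i)))
  have hstep : ∀ ζ : Ordinal.{u} → Ordinal.{u},
      BddAbove (range fun z : P => g (⋃ i ∈ z.1, A (ζ i))) ∧
        ⨆ z : P, g (⋃ i ∈ z.1, A (ζ i)) < lam.ord := fun ζ =>
    iSup_lt_of_mk_lt hlam hP fun z => hg1 _
  have hξlam : ∀ i < Order.succ θ.ord, ξ i < lam.ord := by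
    refine cont_bound hξ hlamlim (fun i _ ζ _ => (hstep ζ).2) ?_
    intro i hi
    have := Ordinal.card_le_card (Order.lt_succ_iff.1 hi)
    rw [Cardinal.card_ord] at this
    rw [hlam.cof_ord]
    exact this.trans_lt hθlam
  have hηlam : ξ θ.ord < lam.ord := hξlam _ (Order.lt_succ _)
  have hηcof : (ξ θ.ord).cof = θ := by rw [cont_cof hξ hθlim, hθ.cof_ord]
  obtain ⟨C, hC, hC'⟩ := hA.2 _ hηlam (by rw [hηcof]; exact hθ0)
  refine ⟨{i | ξ i ∈ C}, club_preimage hξ (by rw [hθ.cof_ord]; exact hθ0) hC, ?_⟩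
  intro e he1 he2
  by_contra hcon
  push Not at hcon
  obtain ⟨ε, hε, hε'⟩ := exists_stage h0 (fun i => A (ξ (e i))) (Iio (Order.succ #X).ord)
    subset_rfl
  obtain ⟨z, hzP, hzD, hzε, i, hi, hzi⟩ := hcon ε hε
  -- the set `E`
  have hEη : (⋃ k ∈ z, A (ξ k)) ⊆ A (ξ θ.ord) := by
    refine iUnion₂_subset fun k hk => hC' _ (hzD hk) (cont_lt hξ ?_)
    exact lt_trans (hzi hk) (he2 i hi).2
  have hcov : Cov A (⋃ k ∈ z, A (ξ k)) (g (⋃ k ∈ z, A (ξ k))) :=
    hg2 _ _ hηlam (cov_self hEη)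
  have hsub : ∀ j < (Order.succ #X).ord, A (ξ (e j)) ⊆ ⋃ k ∈ z, A (ξ k) := by
    intro j hj
    refine (hε' j hj).trans (iUnion₂_subset fun k hk => ?_)
    exact subset_iUnion₂_of_subset (e k) (hzε ⟨k, hk.2, rfl⟩) subset_rfl
  have hsi : Order.succ i < (Order.succ #X).ord := hlim.succ_lt hi
  have hssi : Order.succ (Order.succ i) < (Order.succ #X).ord := hlim.succ_lt hsi
  have hgle : g (⋃ k ∈ z, A (ξ k)) ≤ ξ (e (Order.succ i)) := by
    have h1 := cont_step hξ (he1 _ hsi i (Order.lt_succ i))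
    have h2 := le_ciSup (hstep (fun k => if k ≤ e i then ξ k else 0)).1 ⟨z, hzP⟩
    have h3 : (⋃ k ∈ z, A (if k ≤ e i then ξ k else 0)) = ⋃ k ∈ z, A (ξ k) :=
      iUnion₂_congr fun k hk => by rw [if_pos (le_of_lt (hzi hk))]
    have h4 := h2.trans h1
    simp only [h3] at h4
    exact h4
  refine hA.not_cov ((cont_lt hξ (he2 _ hssi).2).trans hηlam) ?_ (hsub _ hssi) hcov
  exact hgle.trans_lt (cont_lt hξ (he1 _ hssi _ (Order.lt_succ _)))

/-- The length of a weak chain is at most `κ⁺⁺⁺`. -/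
theorem le_succ3 {X : Type u} {lam : Cardinal.{u}} (h0 : ℵ₀ ≤ #X) (hlam : lam.IsRegular)
    {A : Ordinal.{u} → Set X} (hA : WeakChain A lam.ord) :
    lam ≤ Order.succ (Order.succ (Order.succ #X)) := by
  classical
  by_contra hcon
  push Not at hcon
  set κ := #X with hκdef
  have hκ1 : (Order.succ κ).IsRegular := Cardinal.isRegular_succ h0
  have hκ2 : (Order.succ (Order.succ κ)).IsRegular := Cardinal.isRegular_succ hκ1.1
  have hκ3 : (Order.succ (Order.succ (Order.succ κ))).IsRegular := Cardinal.isRegular_succ hκ2.1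
  have hκ0 : ℵ₀ < Order.succ κ := h0.trans_lt (Order.lt_succ κ)
  obtain ⟨C, hC1, hC2⟩ := club_guessing hκ1 hκ0 hκ3 (Order.lt_succ _)
  set θ := Order.succ (Order.succ (Order.succ κ)) with hθdef
  have hκθ : κ < θ := (Order.lt_succ κ).trans ((Order.lt_succ _).trans (Order.lt_succ _))
  obtain ⟨D, hD, hD'⟩ := no_pred h0 hκ3 hκθ hlam hcon hA
    (P := (fun z : Ordinal.{u} × Ordinal.{u} => C z.1 ∩ Iio z.2) '' (Iio θ.ord ×ˢ Iio θ.ord)) (by
      refine Cardinal.mk_image_le.trans_lt ?_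
      rw [Cardinal.mk_setProd, Cardinal.mk_Iio_ordinal, Cardinal.card_ord,
        Cardinal.mul_eq_self (Cardinal.aleph0_le_lift.2 hκ3.1)]
      exact Cardinal.lift_lt.2 hcon)
  obtain ⟨δ, hδ, hδcof, hδC, hδD⟩ := hC2 D hD
  have hcard : Cardinal.lift.{u + 1} κ < #(C δ) := by
    by_contra hle
    push Not at hle
    have hsmall : Small.{u} (C δ) := small_subset (hC1 δ)
    have hsup : ⨆ i : C δ, i.1 < δ := by
      refine Ordinal.lift_iSup_lt_of_lt_cof ?_ fun i => hC1 δ i.2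
      rw [← Ordinal.lift_cof, hδcof, Cardinal.lift_id'.{u, u + 1}]
      exact hle.trans_lt (Cardinal.lift_lt.2 (Order.lt_succ κ))
    obtain ⟨y, hy1, hy2, hy3⟩ := hδC.unb _ hsup
    exact absurd (Ordinal.le_iSup (fun i : C δ => i.1) ⟨y, hy1⟩) (not_le.2 hy2)
  obtain ⟨e, he1, he2⟩ := exists_increasing (hC1 δ) hcard
  obtain ⟨ε, hε, hε'⟩ := hD' e he1 fun i hi => ⟨hδD (he2 i hi), (hC1 δ (he2 i hi)).trans hδ⟩
  refine hε' _ ⟨(δ, e ε), ⟨hδ, (hC1 δ (he2 ε hε)).trans hδ⟩, rfl⟩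
    (inter_subset_left.trans hδD) ?_ ε hε inter_subset_right
  rintro _ ⟨j, hj, rfl⟩
  exact ⟨he2 j (lt_trans hj hε), he1 ε hε j hj⟩

/-- Weak chains have at most `2 ^ κ` members. -/
theorem le_power {X : Type u} {lam : Cardinal.{u}} {A : Ordinal.{u} → Set X}
    (hA : WeakChain A lam.ord) : lam ≤ 2 ^ #X := by
  have h1 : Function.Injective (fun i : Iio lam.ord => A i.1) := by
    intro i j hij
    rcases lt_trichotomy i.1 j.1 with h | h | h
    · exact absurd (Eq.subset hij.symm) (hA.ne j.2 h)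
    · exact Subtype.ext h
    · exact absurd (Eq.subset hij) (hA.ne i.2 h)
  have h2 := Cardinal.mk_le_of_injective (f := fun i : Iio lam.ord => ULift.up.{u + 1} (A i.1))
    fun i j h => h1 (ULift.up_injective h)
  rw [Cardinal.mk_Iio_ordinal, Cardinal.card_ord, Cardinal.mk_uLift, Cardinal.mk_set] at h2
  exact Cardinal.lift_le.1 h2

/-- Below every stationary set there are at most `κ` stationary sets without a common reflection
point. -/
theorem no_reflection {X : Type u} {lam : Cardinal.{u}} (h0 : ℵ₀ ≤ #X) (hlam : lam.IsRegular)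
    (hXlam : #X < lam) {A : Ordinal.{u} → Set X} (hA : WeakChain A lam.ord)
    {S : Set Ordinal.{u}} (hS : StatIn S lam.ord) :
    ∃ T : Set (Set Ordinal.{u}), #T ≤ Cardinal.lift.{u + 1} #X ∧
      (∀ Z ∈ T, Z ⊆ S ∧ StatIn Z lam.ord) ∧
      ∀ β < lam.ord, ℵ₀ < β.cof → ∃ Z ∈ T, ¬ StatIn Z β := by
  classical
  have hcof : ℵ₀ < lam.ord.cof := by rw [hlam.cof_ord]; exact h0.trans_lt hXlam
  have hlim : Order.IsSuccLimit lam.ord := Cardinal.isSuccLimit_ord hlam.1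
  have huniv : ClubIn (Set.univ : Set Ordinal.{u}) lam.ord :=
    ⟨fun y hy => ⟨Order.succ y, trivial, Order.lt_succ y, hlim.succ_lt hy⟩,
      fun _ _ _ _ => trivial⟩
  let N : X → Set Ordinal.{u} := fun x => {δ | δ ∈ S ∧ x ∈ A δ}
  have hE : ∀ x : X, ∃ E : Set Ordinal.{u}, ClubIn E lam.ord ∧
      (¬ StatIn (N x) lam.ord → ∀ δ ∈ E, δ < lam.ord → δ ∉ N x) := by
    intro x
    by_cases hx : StatIn (N x) lam.ord
    · exact ⟨Set.univ, huniv, fun h => absurd hx h⟩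
    · have hx' := hx
      simp only [StatIn, not_forall] at hx'
      obtain ⟨E, hE, hE'⟩ := hx'
      exact ⟨E, hE, fun _ δ h1 h2 h3 => hE' ⟨δ, h3, h1, h2⟩⟩
  choose E hE1 hE2 using hE
  have hE3 : ClubIn (⋂ x, E x) lam.ord :=
    club_iInter hcof (by rw [hlam.cof_ord]; exact hXlam) E hE1
  refine ⟨N '' {x | StatIn (N x) lam.ord}, ?_, ?_, ?_⟩
  · have h1 := Cardinal.mk_image_le_lift (f := N) (s := {x | StatIn (N x) lam.ord})
    rw [Cardinal.lift_id'.{u, u + 1}] at h1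
    exact h1.trans (Cardinal.lift_le.2 (Cardinal.mk_set_le _))
  · rintro _ ⟨x, hx, rfl⟩
    exact ⟨fun δ h => h.1, hx⟩
  · intro β hβ hβcof
    by_contra hcon
    push Not at hcon
    obtain ⟨C, hC, hC'⟩ := hA.2 β hβ hβcof
    obtain ⟨δ, hδS, ⟨hδE, hδβ⟩, hδ⟩ := hS _ (club_inter hcof hE3 (club_Ioi hlim hβ))
    refine hA.ne hδ hδβ fun x hx => ?_
    have hst : StatIn (N x) lam.ord := by
      by_contra hn
      exact hE2 x hn δ (mem_iInter.1 hδE x) hδ ⟨hδS, hx⟩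
    obtain ⟨ζ, h1, h2, h3⟩ := hcon _ ⟨x, hst, rfl⟩ C hC
    exact hC' ζ h2 h3 h1.2

end Pool.Agent.Helper15.PC
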